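import Pool.Agent.helper70.FI3.SpecN3

/-!
# Row DBV3 of project FI3: orthogonality of columns
-/

set_option autoImplicit false

namespace Pool.Agent.FI3

open Pool.Agent.helper58.DC Pool.Agent.DI Pool.Agent.GR Pool.Agent.OB Pool.Agent.DR Pool.Agent.FI

theorem DBV3_mem_Cz {G : Type} [Group G] {H : Subgroup G} {y x : G} :
    x ∈ Cz H y ↔ x ∈ H ∧ y * x = x * y := by
  unfold Cz
  rw [Subgroup.mem_inf, Subgroup.mem_centralizer_singleton_iff]
  constructor
  · rintro ⟨h1, h2⟩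
    exact ⟨h1, h2.symm⟩
  · rintro ⟨h1, h2⟩
    exact ⟨h1, h2.symm⟩

theorem DBV3_mem_conj {G : Type} [Group G] {H : Subgroup G} {a u w x : G} (hw : w ∈ H)
    (h : w⁻¹ * a * w = u) : w⁻¹ * x * w ∈ Cz H u ↔ x ∈ Cz H a := by
  rw [DBV3_mem_Cz, DBV3_mem_Cz]
  have e1 : w⁻¹ * x * w ∈ H ↔ x ∈ H := by
    constructor
    · intro h1
      have h2 := H.mul_mem (H.mul_mem hw h1) (H.inv_mem hw)
      have h3 : w * (w⁻¹ * x * w) * w⁻¹ = x := by group
      rwa [h3] at h2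
    · intro h1
      exact H.mul_mem (H.mul_mem (H.inv_mem hw) h1) hw
  have e2 : u * (w⁻¹ * x * w) = w⁻¹ * x * w * u ↔ a * x = x * a := by
    rw [← h]
    have h1 : w⁻¹ * a * w * (w⁻¹ * x * w) = w⁻¹ * (a * x) * w := by group
    have h2 : w⁻¹ * x * w * (w⁻¹ * a * w) = w⁻¹ * (x * a) * w := by group
    rw [h1, h2]
    constructor
    · intro h3
      exact mul_left_cancel (mul_right_cancel h3)
    · intro h3
      rw [h3]
  rw [e1, e2]

theorem DBV3_cjS {G : Type} [Group G] {H : Subgroup G} {a u w : G} (hw : w ∈ H)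
    (h : w⁻¹ * a * w = u) : cjS w⁻¹ (Cz H a) = Cz H u := by
  ext x
  rw [mem_cjS, inv_inv]
  have h1 := DBV3_mem_conj (x := w * x * w⁻¹) hw h
  have h2 : w⁻¹ * (w * x * w⁻¹) * w = x := by group
  rw [h2] at h1
  exact h1.symm

theorem DBV3 (hRR2 : RR2_stmt) (hCOF : COF_stmt) (hIDM : IDM_stmt) (hEIN : EIN_stmt)
    (hCVF : CVF_stmt) (hCCI : CCI_stmt) (hEXP : EXP_stmt) (hFEQ : FEQ_stmt) : DBV3_stmt := by
  intro p M hS G _ _ H a ha hpa u hu hpu v hv v' hv' hrv hrv' S S' hBS hBS' hdis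
  classical
  have iS := hIDM G (Cz H a) S hBS.sub
  have iS' := hIDM G (Cz H u) S' hBS'.sub
  have haC : a ∈ Cz H a := DBV3_mem_Cz.2 ⟨ha, rfl⟩
  have huC : u ∈ Cz H u := DBV3_mem_Cz.2 ⟨hu, rfl⟩
  have hle : Cz H a ≤ H := inf_le_left
  have hle' : Cz H u ≤ H := inf_le_left
  have sup : ∀ x, x ∉ H → eS (Cz H a) S x = 0 := fun x hx => iS.1.2 x fun h => hx (hle h)
  have sup' : ∀ x, x ∉ H → eS (Cz H u) S' x = 0 := fun x hx => iS'.1.2 x fun h => hx (hle' h)
  have hI : Idm M H (eS (Cz H a) S) := ⟨sup, hEIN p M hS G (Cz H a) S hBS, iS.2.2.1⟩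
  have hJ : Idm M H (eS (Cz H u) S') := ⟨sup', hEIN p M hS G (Cz H u) S' hBS', iS'.2.2.1⟩
  have hrs : rs a (eS (Cz H a) S) = eS (Cz H a) S := by
    funext x
    unfold rs
    by_cases h : a * x = x * a
    · rw [if_pos h]
    · rw [if_neg h]
      exact (iS.1.2 x fun h' => h (DBV3_mem_Cz.1 h').2).symm
  -- the condition
  have hcond : ∀ z ∈ H, ∀ w ∈ H, z⁻¹ * a * z = u → w⁻¹ * a * w = u →
      InM M (co (rs a (eS (Cz H a) S)) (eS (Cz H u) S') z w) := by
    intro z hz w hw hzu hwu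
    rw [hrs, (hCOF G).2.2.2.2.1]
    set h2 : G → ℂ := fun x => eS (Cz H u) S' (w⁻¹ * x * w) with hh2
    have hC2 : CF (Cz H a) h2 := by
      refine ⟨fun c hc x => ?_, fun x hx => ?_⟩
      · change eS (Cz H u) S' (w⁻¹ * (c * x * c⁻¹) * w) = eS (Cz H u) S' (w⁻¹ * x * w)
        have hcc := (DBV3_mem_conj (x := c) hw hwu).2 hc
        have e2 : w⁻¹ * (c * x * c⁻¹) * w =
            (w⁻¹ * c * w) * (w⁻¹ * x * w) * (w⁻¹ * c * w)⁻¹ := by group
        rw [e2]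
        exact iS'.1.1 _ hcc _
      · change eS (Cz H u) S' (w⁻¹ * x * w) = 0
        exact iS'.1.2 _ fun h => hx ((DBV3_mem_conj (x := x) hw hwu).1 h)
    have hz0 : cv (eS (Cz H a) S) h2 = 0 := by
      refine hEXP G (Cz H a) _ ?_ ?_
      · exact ((hCVF G).2.2.2.2.2.2.2.1 (Cz H a) _ _ iS.1 hC2).1
      · intro ψ hψ
        rw [(hCCI G (Cz H a) ψ hψ).2.1 _ _ iS.1 hC2, iS.2.1 ψ hψ]
        have e3 : cc ψ h2 = cc (cjF w⁻¹ ψ) (eS (Cz H u) S') := by
          have e4 := cc_funMap w⁻¹ ψ (eS (Cz H u) S')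
          rw [inv_inv] at e4
          exact e4.symm
        have hirr : cjF w⁻¹ ψ ∈ IrrOn (Cz H u) := by
          have e5 := (hFEQ G M w⁻¹ 1 ⊥ ⊥ (Cz H a) ψ ψ ψ).2.2.2.1.1 hψ
          rwa [DBV3_cjS hw hwu] at e5
        rw [e3, iS'.2.1 _ hirr]
        by_cases h3 : ψ ∈ S
        · have h4 : cjF w⁻¹ ψ ∉ S' := by
            intro h5
            have h6 : w * u * w⁻¹ = a := by
              rw [← hwu]
              group
            have h7 := hdis w hw h6 _ h5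
            apply h7
            have h8 : cjF w (cjF w⁻¹ ψ) = ψ := by
              funext x
              rw [cjF_apply, cjF_apply, inv_inv]
              congr 1
              group
            rw [h8]
            exact h3
          rw [if_neg h4, mul_zero]
        · rw [if_neg h3, zero_mul]
    rw [hz0]
    exact InM.zero hS
  have hv1 := DBV3_mem_Cz.1 hv
  have hv2 := DBV3_mem_Cz.1 hv'
  exact hRR2 p M hS G H a ha v hv1.1 u hu v' hv2.1 hpa hpu hrv hrv' hv1.2 hv2.2 _ _ hI hJ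
    (fun x => iS.1.1 (a * v) ((Cz H a).mul_mem haC hv) x)
    (fun x => iS'.1.1 (u * v') ((Cz H u).mul_mem huC hv') x) hcond

end Pool.Agent.FI3
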