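import Pool.Agent.helper70.FI3.SpecN3

/-!
# Row TRZ3 of project FI3
-/

set_option autoImplicit false

namespace Pool.Agent.FI3

open Pool.Agent.helper58.DC Pool.Agent.DI Pool.Agent.GR Pool.Agent.OB Pool.Agent.DR Pool.Agent.FI

theorem TRZ3_mem_Cz {G : Type} [Group G] {H : Subgroup G} {y x : G} :
    x ∈ Cz H y ↔ x ∈ H ∧ y * x = x * y := by
  unfold Cz
  rw [Subgroup.mem_inf, Subgroup.mem_centralizer_singleton_iff]
  constructor
  · rintro ⟨h1, h2⟩
    exact ⟨h1, h2.symm⟩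
  · rintro ⟨h1, h2⟩
    exact ⟨h1, h2.symm⟩

theorem TRZ3_Cz {G : Type} [Group G] {L : Subgroup G} {z u : G} (hz : Cen L z) :
    Cz L (z * u) = Cz L u := by
  ext x
  rw [TRZ3_mem_Cz, TRZ3_mem_Cz]
  constructor
  · rintro ⟨h1, h2⟩
    refine ⟨h1, ?_⟩
    have h3 : z * (u * x) = z * (x * u) := by
      rw [← mul_assoc, h2, ← mul_assoc, hz x h1, mul_assoc]
    exact mul_left_cancel h3
  · rintro ⟨h1, h2⟩
    refine ⟨h1, ?_⟩
    rw [mul_assoc, h2, ← mul_assoc, ← hz x h1, mul_assoc]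

theorem TRZ3_pow {G : Type} [Group G] {z u t : G} (h : t * u * t⁻¹ = z * u) (hz : t * z = z * t) :
    ∀ n : ℕ, t ^ n * u * (t ^ n)⁻¹ = z ^ n * u := by
  intro n
  induction n with
  | zero => simp
  | succ n ih =>
    have hc : t * z ^ n = z ^ n * t := by
      have h1 : Commute t z := hz
      exact (h1.pow_right n).eq
    calc t ^ (n + 1) * u * (t ^ (n + 1))⁻¹ = t * (t ^ n * u * (t ^ n)⁻¹) * t⁻¹ := by
          rw [pow_succ' t n, mul_inv_rev]
          group
      _ = t * (z ^ n * u) * t⁻¹ := by rw [ih]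
      _ = z ^ n * (t * u * t⁻¹) := by
          rw [← mul_assoc, hc]
          group
      _ = z ^ n * (z * u) := by rw [h]
      _ = z ^ (n + 1) * u := by rw [← mul_assoc, ← pow_succ]

theorem TRZ3 (hDBV : DBV3_stmt) (hQFU : QFU3_stmt) (hFRA : FRA3_stmt) : TRZ3_stmt := by
  intro p M hS G _ _ D x θ χ hlo P hP u hu v hv hrv z hz hz1
  have hzD := (Zc_mem.1 hz).1
  have hzL := (Zc_mem.1 hz).2
  have hDL : D ≤ cz P := Q1_D_le hlo.rt hP
  have hK : Cz (cz P) (z * u) = Cz (cz P) u := TRZ3_Cz hzL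
  have hpg : IsPGroup p D := hlo.rt.dfa.pgrp
  have hpel : ∀ d ∈ D, PEl p d := by
    intro d hd
    obtain ⟨k, hk⟩ := hpg ⟨d, hd⟩
    refine ⟨k, ?_⟩
    have h1 := congrArg Subtype.val hk
    simpa using h1
  have hzu : z * u ∈ D := D.mul_mem hzD hu
  have hb : BC M (Cz (cz P) u) (Bl M (Cz (cz P) u) θ) := (Q1_BC M (Cz (cz P) u) 1 θ).1
  have hb' : BC M (Cz (cz P) (z * u)) (Bl M (Cz (cz P) u) θ) := by
    rw [hK]
    exact hb
  have hv' : v ∈ Cz (cz P) (z * u) := by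
    rw [hK]
    exact hv
  have key := hDBV p M hS G (cz P) (z * u) (hDL hzu) (hpel _ hzu) u (hDL hu) (hpel _ hu) v hv' v hv
    hrv hrv (Bl M (Cz (cz P) u) θ) (Bl M (Cz (cz P) u) θ) hb' hb ?_
  · rw [hK] at key
    exact key
  · intro w hw hwu ψ hψ hcon
    have hwD : w * u * w⁻¹ ∈ D := by
      rw [hwu]
      exact hzu
    have hKw : Cz (cz P) (w * u * w⁻¹) = Cz (cz P) u := by rw [hwu, hK]
    obtain ⟨k, hk, hkw⟩ := hQFU p M hS G D x θ χ hlo P hP u hu w hw hwD ψ hψ.1 (SB.symm hψ.2)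
      (by
        rw [hKw]
        exact SB.symm hcon.2)
    obtain ⟨hk1, hk2⟩ := TRZ3_mem_Cz.1 hk
    rw [hwu] at hk2
    have ht : k * w * u * (k * w)⁻¹ = z * u := by
      have h1 : k * w * u * (k * w)⁻¹ = k * (w * u * w⁻¹) * k⁻¹ := by group
      rw [h1, hwu, ← hk2]
      group
    have htz : (k * w) * z = z * (k * w) := hzL (k * w) ((cz P).mul_mem hk1 hw)
    have hpow := TRZ3_pow ht htz
    -- the power lies in the centraliser of `D`
    have hle : cz D ≤ TT M D θ := (hFRA p M hS G D x θ χ hlo P hP).1.1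
    have hn : (k * w) ^ (cz D).relIndex (TT M D θ) ∈ cz D := by
      have hnor : ((cz D).subgroupOf (TT M D θ)).Normal := by
        constructor
        intro n hn g
        rw [Subgroup.mem_subgroupOf] at hn ⊢
        exact cz_conj g.2.1 hn
      have h1 := Subgroup.pow_index_mem ((cz D).subgroupOf (TT M D θ)) (⟨k * w, hkw⟩ : TT M D θ)
      rw [Subgroup.mem_subgroupOf] at h1
      exact h1
    have h2 := hpow ((cz D).relIndex (TT M D θ))
    have h3 : (k * w) ^ (cz D).relIndex (TT M D θ) * u *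
        ((k * w) ^ (cz D).relIndex (TT M D θ))⁻¹ = u := by
      have h4 := (Subgroup.mem_centralizer_iff.1 hn) u hu
      rw [← h4]
      group
    rw [h3] at h2
    have h5 : z ^ (cz D).relIndex (TT M D θ) = 1 := by
      have h6 : z ^ (cz D).relIndex (TT M D θ) * u = 1 * u := by
        rw [one_mul]
        exact h2.symm
      exact mul_right_cancel h6
    obtain ⟨m, hm⟩ := hpel z hzD
    have hcop : Nat.Coprime (p ^ m) ((cz D).relIndex (TT M D θ)) :=
      Nat.Coprime.pow_left m ((Nat.Prime.coprime_iff_not_dvd hS.pr).2 hlo.bet)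
    have h7 : orderOf z ∣ Nat.gcd (p ^ m) ((cz D).relIndex (TT M D θ)) :=
      Nat.dvd_gcd (orderOf_dvd_of_pow_eq_one hm) (orderOf_dvd_of_pow_eq_one h5)
    rw [hcop.gcd_eq_one, Nat.dvd_one, orderOf_eq_one_iff] at h7
    exact hz1 h7

end Pool.Agent.FI3
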