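import Pool.Agent.helper70.FI3.SpecN3

/-!
# Row TRV3 of project FI3
-/

set_option autoImplicit false

namespace Pool.Agent.FI3

open Pool.Agent.helper58.DC Pool.Agent.DI Pool.Agent.GR Pool.Agent.OB Pool.Agent.DR Pool.Agent.FI

/-- The formal part of the computation. -/
theorem TRV3_alg {G : Type} [Group G] [Finite G] (Z : Subgroup G) (I X : Set (G → ℂ))
    (hI : I.Finite) (hXI : X ⊆ I) (l : Z → ℂ) (hl : l 1 = 1) (c : (G → ℂ) → Z → ℂ)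
    (F F' : (G → ℂ) → ℂ) (T : Z → ℂ) (N : ℂ)
    (h1 : ∀ χ ∈ X, ∑ᶠ z : Z, (l z)⁻¹ * c χ z = N)
    (h2 : ∀ χ ∈ I, χ ∉ X → (∑ᶠ z : Z, (l z)⁻¹ * c χ z = 0) ∨ F χ = 0)
    (hT : ∀ z : Z, T z = ∑ᶠ χ ∈ I, c χ z * F χ * F' χ) (hT1 : ∀ z : Z, z ≠ 1 → T z = 0) :
    N * ∑ᶠ χ ∈ X, F χ * F' χ = T 1 := by
  classical
  have : Fintype Z := Fintype.ofFinite Z
  have hX : X.Finite := hI.subset hXI
  have e0 : T 1 = ∑ z : Z, (l z)⁻¹ * T z := by
    rw [Finset.sum_eq_single (1 : Z)]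
    · rw [hl, inv_one, one_mul]
    · intro z _ hz
      rw [hT1 z hz, mul_zero]
    · intro h
      exact absurd (Finset.mem_univ _) h
  have e1 : ∑ z : Z, (l z)⁻¹ * T z = ∑ χ ∈ hI.toFinset, (∑ z : Z, (l z)⁻¹ * c χ z) * (F χ * F' χ) := by
    have e2 : ∀ z : Z, (l z)⁻¹ * T z = ∑ χ ∈ hI.toFinset, (l z)⁻¹ * c χ z * (F χ * F' χ) := by
      intro z
      rw [hT z, finsum_mem_eq_finite_toFinset_sum _ hI, Finset.mul_sum]
      refine Finset.sum_congr rfl fun χ _ => ?_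
      ring
    rw [Finset.sum_congr rfl fun z _ => e2 z, Finset.sum_comm]
    refine Finset.sum_congr rfl fun χ _ => ?_
    rw [Finset.sum_mul]
  have e3 : ∑ χ ∈ hI.toFinset, (∑ z : Z, (l z)⁻¹ * c χ z) * (F χ * F' χ) =
      ∑ χ ∈ hX.toFinset, N * (F χ * F' χ) := by
    symm
    have hsub : hX.toFinset ⊆ hI.toFinset := by
      intro χ hχ
      rw [Set.Finite.mem_toFinset] at hχ ⊢
      exact hXI hχ
    have e4 : ∑ χ ∈ hX.toFinset, N * (F χ * F' χ) =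
        ∑ χ ∈ hX.toFinset, (∑ z : Z, (l z)⁻¹ * c χ z) * (F χ * F' χ) := by
      refine Finset.sum_congr rfl fun χ hχ => ?_
      rw [Set.Finite.mem_toFinset] at hχ
      have h3 := h1 χ hχ
      rw [finsum_eq_sum_of_fintype] at h3
      rw [h3]
    rw [e4]
    refine Finset.sum_subset hsub fun χ hχ hχ' => ?_
    rw [Set.Finite.mem_toFinset] at hχ hχ'
    rcases h2 χ hχ hχ' with h3 | h3
    · rw [finsum_eq_sum_of_fintype] at h3
      rw [h3, zero_mul]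
    · rw [h3, zero_mul, mul_zero]
  rw [e0, e1, e3, ← Finset.mul_sum, finsum_mem_eq_finite_toFinset_sum _ hX]

theorem TRV3 (hTRZ : TRZ3_stmt) (hTRL : TRL3_stmt) (hDCV : DCV3_stmt) (hRR4 : RR4_stmt)
    (hB2 : B2_stmt) : TRV3_stmt := by
  intro p M hS G _ _ D x θ χ hlo P hP Z hZ l u hu v hv hrv
  classical
  have hDL : D ≤ cz P := Q1_D_le hlo.rt hP
  have hZL : Z ≤ cz P := fun z hz => hDL (Zc_mem.1 (hZ hz)).1
  have hZc : ∀ z ∈ Z, Cen (cz P) z := fun z hz => (Zc_mem.1 (hZ hz)).2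
  have hpg : IsPGroup p D := hlo.rt.dfa.pgrp
  have hpel : PEl p u := by
    obtain ⟨k, hk⟩ := hpg ⟨u, hu⟩
    refine ⟨k, ?_⟩
    have h1 := congrArg Subtype.val hk
    simpa using h1
  have hb : BC M (Cz (cz P) u) (Bl M (Cz (cz P) u) θ) := (Q1_BC M (Cz (cz P) u) 1 θ).1
  have hI : (IrrOn (cz P)).Finite := (hB2 G (cz P)).1
  have hXI : XL M (cz P) θ Z l ⊆ IrrOn (cz P) := fun ψ hψ => hψ.1.1
  have hcard : (Nat.card Z : ℂ) ≠ 0 := by
    exact_mod_cast Nat.card_pos.ne'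
  have hF0 : ∀ χ' ∈ IrrOn (cz P), χ' ∉ Bl M (cz P) θ →
      ev χ' (eS (Cz (cz P) u) (Bl M (Cz (cz P) u) θ)) (u * v) = 0 := by
    refine hDCV p M hS G (cz P) u (hDL hu) hpel v hv hrv (Bl M (cz P) θ) _ (BlC M (cz P) θ u)
      (Q1_BC M (cz P) u θ).1 hb (Q1_BC M (cz P) u θ).2 ?_ ?_
    · intro η hη
      refine ⟨hη.1, ?_⟩
      refine Q1_mono inf_le_left hη.1.1 ?_ hη.2
      intro y hy
      exact hlo.rt.th.1 y fun h => hy (Q1_C_Cz hP hu h)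
    · exact hlo.eqr P hP u (hDL hu) hpel
  have key := TRV3_alg Z (IrrOn (cz P)) (XL M (cz P) θ Z l) hI hXI (fun z => (l z : ℂ))
    (by simp) (fun χ' z => χ' z / χ' 1)
    (fun χ' => ev χ' (eS (Cz (cz P) u) (Bl M (Cz (cz P) u) θ)) (u * v))
    (fun χ' => ev χ' (eS (Cz (cz P) u) (Bl M (Cz (cz P) u) θ)) (u * v)⁻¹)
    (fun z => ∑ᶠ χ' ∈ IrrOn (cz P),
      ev χ' (eS (Cz (cz P) u) (Bl M (Cz (cz P) u) θ)) (z * u * v) *
      ev χ' (eS (Cz (cz P) u) (Bl M (Cz (cz P) u) θ)) (u * v)⁻¹)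
    (Nat.card Z : ℂ) ?_ ?_ ?_ ?_
  · -- conclusion
    have h1 := (hRR4 p M hS G (cz P) u (hDL hu) hpel _ _ hb hb).1 v hv v hv hrv hrv
    rw [Set.inter_self] at h1
    have h2 : (Nat.card Z : ℂ) * ∑ᶠ χ' ∈ XL M (cz P) θ Z l,
        ev χ' (eS (Cz (cz P) u) (Bl M (Cz (cz P) u) θ)) (u * v) *
        ev χ' (eS (Cz (cz P) u) (Bl M (Cz (cz P) u) θ)) (u * v)⁻¹ =
        Sf (Bl M (Cz (cz P) u) θ) v v := by
      rw [← h1]
      refine key.trans ?_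
      rw [OneMemClass.coe_one, one_mul]
    rw [← h2, mul_comm, mul_div_assoc, div_self hcard, mul_one]
  · intro χ' hχ'
    have h1 := (hTRL G (cz P) Z hZL hZc χ' hχ'.1.1).2 l
    rw [if_pos hχ'.2] at h1
    exact h1
  · intro χ' hχ' hn
    by_cases h2 : χ' ∈ Bl M (cz P) θ
    · left
      have h1 := (hTRL G (cz P) Z hZL hZc χ' hχ').2 l
      rw [if_neg fun h => hn ⟨h2, h⟩] at h1
      exact h1
    · right
      exact hF0 χ' hχ' h2
  · intro z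
    refine finsum_mem_congr rfl fun χ' hχ' => ?_
    have h1 := (hTRL G (cz P) Z hZL hZc χ' hχ').1 (eS (Cz (cz P) u) (Bl M (Cz (cz P) u) θ)) z z.2
      (u * v)
    rw [mul_assoc, h1]
  · intro z hz
    refine hTRZ p M hS G D x θ χ hlo P hP u hu v hv hrv z (hZ z.2) ?_
    intro h
    apply hz
    exact Subtype.ext h

end Pool.Agent.FI3
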